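import Mathlib
import Pool.Agent.H33.BDFP.DStmts

attribute [local instance] Pool.Agent.H33.BDFP.NV.instNACG Pool.Agent.H33.BDFP.NV.instModule
  Pool.Agent.H33.BDFP.NV.instNormedSpace Pool.Agent.H33.BDFP.NV.instFD
  Pool.Agent.H33.BDFP.NV.instComplete

/-!
Liftability to invertible elements: stability under small perturbations and under the functional
calculus.
-/

noncomputable section

namespace Pool.Agent.H42.BDFP

open Pool.Agent.H33.BDFP
open scoped CStarAlgebra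

variable {B A : Type} [CStarAlgebra B] [CStarAlgebra A] {π : B →⋆ₐ[ℂ] A}

theorem surj (hπ : Good B A π) (a : A) : ∃ X : B, π X = a := by
  have h1 : (0:ℝ) < ‖a‖ + 1 := by positivity
  obtain ⟨X, hX, -⟩ := hπ.lift (((‖a‖ + 1 : ℝ)⁻¹ : ℂ) • a) (by
    rw [norm_smul]
    have : ‖(((‖a‖ + 1 : ℝ)⁻¹ : ℂ))‖ = (‖a‖ + 1)⁻¹ := by
      rw [norm_inv]
      congr 1
      rw [Complex.norm_real, Real.norm_of_nonneg h1.le]
    rw [this, inv_mul_lt_iff₀ h1]
    linarith)
  refine ⟨((‖a‖ + 1 : ℝ) : ℂ) • X, ?_⟩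
  rw [map_smul, hX, smul_smul, mul_inv_cancel₀, one_smul]
  exact_mod_cast h1.ne'

theorem lft_mul {a b : A} (ha : Lft π a) (hb : Lft π b) : Lft π (a * b) := by
  obtain ⟨U, hU⟩ := ha
  obtain ⟨V, hV⟩ := hb
  exact ⟨U * V, by rw [Units.val_mul, map_mul, hU, hV]⟩

theorem lft_exp (hπ : Good B A π) (c : A) : Lft π (NormedSpace.exp c) := by
  obtain ⟨C, hC⟩ := surj hπ c
  let +nondep : NormedAlgebra ℚ B := .restrictScalars ℚ ℂ B
  let +nondep : NormedAlgebra ℚ A := .restrictScalars ℚ ℂ A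
  have hu : IsUnit (NormedSpace.exp C) := NormedSpace.isUnit_exp C
  obtain ⟨U, hU⟩ := hu
  refine ⟨U, ?_⟩
  rw [hU, ← hC]
  exact NormedSpace.map_exp π (map_continuous π) C

theorem lft_one_sub (hπ : Good B A π) {y : A} (hy : ‖y‖ < 1) : Lft π (1 - y) := by
  obtain ⟨X, hX, hX1⟩ := hπ.lift y hy
  refine ⟨Units.oneSub X hX1, ?_⟩
  rw [Units.val_oneSub, map_sub, map_one, hX]

theorem lft_unit {a : A} (ha : Lft π a) : IsUnit a := by
  obtain ⟨U, hU⟩ := ha
  rw [← hU]
  exact U.isUnit.map π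

/-- functional calculus with a function whose quotient by the identity avoids the negative
half line -/
theorem lft_cfc (hπ : Good B A π) {b : A} (hb : IsStarNormal b) {μ : ℂ}
    (hμ : Lft π (b - algebraMap ℂ A μ)) (r : ℂ → ℂ) (hr : ContinuousOn r (spectrum ℂ b))
    (hq : ∀ v ∈ spectrum ℂ b, (r v - μ) / (v - μ) ∈ Complex.slitPlane) :
    Lft π (cfc r b - algebraMap ℂ A μ) := by
  have hμs : μ ∉ spectrum ℂ b := by
    intro h
    rw [spectrum.mem_iff] at h
    apply h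
    have := (lft_unit hμ).neg
    rwa [neg_sub] at this
  have hne : ∀ v ∈ spectrum ℂ b, v - μ ≠ 0 := by
    intro v hv h
    rw [sub_eq_zero] at h
    exact hμs (h ▸ hv)
  have hc1 : ContinuousOn (fun v => (r v - μ) / (v - μ)) (spectrum ℂ b) :=
    (hr.sub continuousOn_const).div (continuousOn_id.sub continuousOn_const) hne
  have hc2 : ContinuousOn (fun v => Complex.log ((r v - μ) / (v - μ))) (spectrum ℂ b) :=
    hc1.clog hq
  have e1 : cfc (fun v => (r v - μ) / (v - μ)) b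
      = NormedSpace.exp (cfc (fun v => Complex.log ((r v - μ) / (v - μ))) b) := by
    rw [← CFC.complex_exp_eq_normedSpace_exp]
    rw [← cfc_comp' Complex.exp (fun v => Complex.log ((r v - μ) / (v - μ))) b]
    apply cfc_congr
    intro v hv
    simp only
    rw [Complex.exp_log (Complex.slitPlane_ne_zero (hq v hv))]
  have e2 : cfc r b - algebraMap ℂ A μ
      = (b - algebraMap ℂ A μ) * cfc (fun v => (r v - μ) / (v - μ)) b := by
    have e3 : b - algebraMap ℂ A μ = cfc (fun v : ℂ => v - μ) b := by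
      rw [cfc_sub (fun v : ℂ => v) (fun _ => μ) b, cfc_id' ℂ b, cfc_const μ b]
    rw [e3, ← cfc_mul (fun v : ℂ => v - μ) (fun v => (r v - μ) / (v - μ)) b]
    have e4 : cfc r b - algebraMap ℂ A μ = cfc (fun v => r v - μ) b := by
      rw [cfc_sub r (fun _ => μ) b, cfc_const μ b]
    rw [e4]
    apply cfc_congr
    intro v hv
    simp only
    rw [mul_div_cancel₀ _ (hne v hv)]
  rw [e2, e1]
  exact lft_mul hμ (lft_exp hπ _)

/-- liftability is stable under perturbations smaller than the distance to the spectrum -/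
theorem lft_pert (hπ : Good B A π) {b b' : A} (hb : IsStarNormal b) {μ : ℂ} {δ : ℝ} (hδ : 0 < δ)
    (hμ : Lft π (b - algebraMap ℂ A μ)) (hd : ∀ v ∈ spectrum ℂ b, δ ≤ ‖v - μ‖)
    (hb' : ‖b' - b‖ < δ) : Lft π (b' - algebraMap ℂ A μ) := by
  have hne : ∀ v ∈ spectrum ℂ b, v - μ ≠ 0 := by
    intro v hv h
    have := hd v hv
    rw [h, norm_zero] at this
    linarith
  have hc0 : ContinuousOn (fun v : ℂ => v - μ) (spectrum ℂ b) :=
    continuousOn_id.sub continuousOn_const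
  have hc1 : ContinuousOn (fun v : ℂ => (v - μ)⁻¹) (spectrum ℂ b) := hc0.inv₀ hne
  have hG : ‖cfc (fun v : ℂ => (v - μ)⁻¹) b‖ ≤ δ⁻¹ := by
    apply norm_cfc_le (by positivity)
    intro v hv
    rw [norm_inv]
    exact inv_anti₀ hδ (hd v hv)
  have e3 : b - algebraMap ℂ A μ = cfc (fun v : ℂ => v - μ) b := by
    rw [cfc_sub (fun v : ℂ => v) (fun _ => μ) b, cfc_id' ℂ b, cfc_const μ b]
  have e4 : (b - algebraMap ℂ A μ) * cfc (fun v : ℂ => (v - μ)⁻¹) b = 1 := by
    rw [e3, ← cfc_mul (fun v : ℂ => v - μ) (fun v => (v - μ)⁻¹) b, ← cfc_const_one ℂ b]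
    apply cfc_congr
    intro v hv
    simp only
    rw [mul_inv_cancel₀ (hne v hv)]
  have e5 : b' - algebraMap ℂ A μ = (b - algebraMap ℂ A μ) *
      (1 - (-(cfc (fun v : ℂ => (v - μ)⁻¹) b * (b' - b)))) := by
    rw [sub_neg_eq_add, mul_add, mul_one, ← mul_assoc, e4, one_mul]
    abel
  rw [e5]
  apply lft_mul hμ
  apply lft_one_sub hπ
  rw [norm_neg]
  calc ‖cfc (fun v : ℂ => (v - μ)⁻¹) b * (b' - b)‖
      ≤ ‖cfc (fun v : ℂ => (v - μ)⁻¹) b‖ * ‖b' - b‖ := norm_mul_le _ _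
    _ ≤ δ⁻¹ * ‖b' - b‖ := by gcongr
    _ < δ⁻¹ * δ := by
      apply mul_lt_mul_of_pos_left hb'
      positivity
    _ = 1 := inv_mul_cancel₀ hδ.ne'

end Pool.Agent.H42.BDFP
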