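import Mathlib
import Pool.Agent.H33.BDFP.DStmts
import Pool.Agent.H42.BDFP.Lft

attribute [local instance] Pool.Agent.H33.BDFP.NV.instNACG Pool.Agent.H33.BDFP.NV.instModule
  Pool.Agent.H33.BDFP.NV.instNormedSpace Pool.Agent.H33.BDFP.NV.instFD
  Pool.Agent.H33.BDFP.NV.instComplete

/-!
Module CUTALL: cutting all the edges of the grid, one at a time.
-/

noncomputable section

namespace Pool.Agent.H42.BDFP

open Pool.Agent.H33.BDFP
open scoped CStarAlgebra

variable {B A : Type} [CStarAlgebra B] [CStarAlgebra A] {π : B →⋆ₐ[ℂ] A}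

theorem lft_algebraMap {u : ℂ} (hu : u ≠ 0) : Lft π (algebraMap ℂ A u) :=
  ⟨Units.map (algebraMap ℂ B).toMonoidHom (Units.mk0 u hu), by
    simp only [RingHom.toMonoidHom_eq_coe, Units.coe_map, MonoidHom.coe_coe, Units.val_mk0]
    exact AlgHomClass.commutes π u⟩

theorem aff {b : A} (hb : IsStarNormal b) (u m : ℂ) :
    cfc (fun z : ℂ => u * (z - m)) b = u • (b - algebraMap ℂ A m) := by
  rw [cfc_const_mul u (fun z : ℂ => z - m) b, cfc_sub (fun v : ℂ => v) (fun _ => m) b,
    cfc_id' ℂ b, cfc_const m b]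

theorem cut_step (hE : EdgeStmt) (hπ : Good B A π) {b : A} (hb : IsStarNormal b) (u m : ℂ)
    (hu : ‖u‖ = 1) (h1 : ∀ v ∈ spectrum ℂ b, u * (v - m) ∈ gridS)
    (h2 : Lft π (b - algebraMap ℂ A (m + u⁻¹ * (1 / 2))))
    (h3 : Lft π (b - algebraMap ℂ A (m - u⁻¹ * (1 / 2)))) {ε : ℝ} (hε : 0 < ε) :
    ∃ b' : A, IsStarNormal b' ∧ ‖b' - b‖ ≤ ε ∧ m ∉ spectrum ℂ b' ∧
      ∀ z ∈ spectrum ℂ b', z ∈ spectrum ℂ b ∨
        ((u * (z - m)).re = 0 ∧ |(u * (z - m)).im| ≤ ε) := by
  have hu0 : u ≠ 0 := by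
    rintro rfl
    simp at hu
  have hn : IsStarNormal (u • (b - algebraMap ℂ A m)) := by
    rw [← aff hb u m]
    exact cfc_predicate _ _
  have hs : spectrum ℂ (u • (b - algebraMap ℂ A m)) = (fun z : ℂ => u * (z - m)) '' spectrum ℂ b := by
    rw [← aff hb u m, cfc_map_spectrum (fun z : ℂ => u * (z - m)) b]
  have ehalf : algebraMap ℂ A (1 / 2) = algebraMap ℂ A u * algebraMap ℂ A (u⁻¹ * (1 / 2)) := by
    rw [← map_mul, ← mul_assoc, mul_inv_cancel₀ hu0, one_mul]
  obtain ⟨c, hc, hcn, hc0, hcs⟩ := hE B A π hπ (u • (b - algebraMap ℂ A m)) hn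
    (by
      rw [hs]
      rintro _ ⟨v, hv, rfl⟩
      exact h1 v hv)
    (by
      have : u • (b - algebraMap ℂ A m) - algebraMap ℂ A (1 / 2)
          = algebraMap ℂ A u * (b - algebraMap ℂ A (m + u⁻¹ * (1 / 2))) := by
        rw [map_add, Algebra.smul_def, ehalf, mul_sub, mul_sub, mul_add]
        abel
      rw [this]
      exact lft_mul (lft_algebraMap hu0) h2)
    (by
      have : u • (b - algebraMap ℂ A m) + algebraMap ℂ A (1 / 2)
          = algebraMap ℂ A u * (b - algebraMap ℂ A (m - u⁻¹ * (1 / 2))) := by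
        rw [map_sub, Algebra.smul_def, ehalf, mul_sub, mul_sub, mul_sub]
        abel
      rw [this]
      exact lft_mul (lft_algebraMap hu0) h3) ε hε
  set f : ℂ → ℂ := fun z => u⁻¹ * (z - (-(u * m))) with hf
  have hff : ∀ z, f z = m + u⁻¹ * z := by
    intro z
    simp only [hf]
    rw [sub_neg_eq_add, mul_add, ← mul_assoc, inv_mul_cancel₀ hu0, one_mul, add_comm]
  have e1 : cfc f c = u⁻¹ • (c - algebraMap ℂ A (-(u * m))) := aff hc _ _
  have hsc : spectrum ℂ (cfc f c) = f '' spectrum ℂ c := cfc_map_spectrum f c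
  refine ⟨cfc f c, cfc_predicate _ _, ?_, ?_, ?_⟩
  · have e2 : cfc f c - b = u⁻¹ • (c - u • (b - algebraMap ℂ A m)) := by
      rw [e1, smul_sub, smul_sub, smul_smul, inv_mul_cancel₀ hu0, one_smul,
        Algebra.algebraMap_eq_smul_one, Algebra.algebraMap_eq_smul_one, smul_smul, mul_neg,
        ← mul_assoc, inv_mul_cancel₀ hu0, one_mul, neg_smul]
      abel
    rw [e2, norm_smul, norm_inv, hu, inv_one, one_mul]
    exact hcn
  · rw [hsc]
    rintro ⟨z, hz, hz2⟩
    rw [hff] at hz2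
    have : u⁻¹ * z = 0 := by
      have := hz2
      linear_combination this
    rcases mul_eq_zero.1 this with h | h
    · exact hu0 (inv_eq_zero.1 h)
    · rw [h] at hz
      exact hc0 hz
  · rw [hsc]
    rintro _ ⟨z, hz, rfl⟩
    have e3 : u * (f z - m) = z := by
      rw [hff, add_sub_cancel_left, ← mul_assoc, mul_inv_cancel₀ hu0, one_mul]
    rcases hcs hz with h | h
    · left
      rw [hs] at h
      obtain ⟨v, hv, hv2⟩ := h
      have : f z = v := by
        rw [hff, ← hv2]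
        simp only
        rw [← mul_assoc, inv_mul_cancel₀ hu0, one_mul]
        ring
      rw [this]
      exact hv
    · right
      rw [e3]
      exact h

/-- midpoints of the edges in the square -/
def Mid (R : ℕ) (m : ℂ) : Prop :=
  (∃ k l : ℤ, m = ⟨(k : ℝ), (l : ℝ) + 1 / 2⟩ ∧ -(R : ℤ) ≤ k ∧ k ≤ R ∧ -(R : ℤ) ≤ l ∧ l + 1 ≤ R) ∨
  (∃ k l : ℤ, m = ⟨(k : ℝ) + 1 / 2, (l : ℝ)⟩ ∧ -(R : ℤ) ≤ k ∧ k + 1 ≤ R ∧ -(R : ℤ) ≤ l ∧ l ≤ R)

/-- the finite set of midpoints -/
theorem mids (R : ℕ) : ∃ S : Finset ℂ, ∀ m, m ∈ S ↔ Mid R m := by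
  classical
  refine ⟨(((Finset.Icc (-(R : ℤ)) R) ×ˢ (Finset.Icc (-(R : ℤ)) R)).image
      (fun q => (⟨(q.1 : ℝ), (q.2 : ℝ) + 1 / 2⟩ : ℂ)) ∪
    ((Finset.Icc (-(R : ℤ)) R) ×ˢ (Finset.Icc (-(R : ℤ)) R)).image
      (fun q => (⟨(q.1 : ℝ) + 1 / 2, (q.2 : ℝ)⟩ : ℂ))).filter (Mid R), ?_⟩
  intro m
  rw [Finset.mem_filter]
  constructor
  · exact fun h => h.2
  · intro h
    refine ⟨?_, h⟩
    rw [Finset.mem_union, Finset.mem_image, Finset.mem_image]
    rcases h with ⟨k, l, hm, h1, h2, h3, h4⟩ | ⟨k, l, hm, h1, h2, h3, h4⟩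
    · left
      refine ⟨(k, l), ?_, hm.symm⟩
      rw [Finset.mem_product, Finset.mem_Icc, Finset.mem_Icc]
      exact ⟨⟨h1, h2⟩, h3, by simp only; omega⟩
    · right
      refine ⟨(k, l), ?_, hm.symm⟩
      rw [Finset.mem_product, Finset.mem_Icc, Finset.mem_Icc]
      exact ⟨⟨h1, by simp only; omega⟩, h3, h4⟩

theorem grid_dist {v μ : ℂ} (hv : v ∈ grid) (hμ : ∃ k l : ℤ, μ = ⟨(k : ℝ) + 1 / 2, (l : ℝ) + 1 / 2⟩) :
    1 / 2 ≤ ‖v - μ‖ := by
  obtain ⟨k, l, rfl⟩ := hμ
  have key : ∀ n k : ℤ, (1 / 2 : ℝ) ≤ |(n : ℝ) - ((k : ℝ) + 1 / 2)| := by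
    intro n k
    rcases le_or_gt (n : ℤ) k with h | h
    · have : (n : ℝ) ≤ k := by exact_mod_cast h
      rw [abs_of_nonpos (by linarith)]
      linarith
    · have : (k : ℝ) + 1 ≤ n := by exact_mod_cast h
      rw [abs_of_nonneg (by linarith)]
      linarith
  rcases hv with ⟨n, hn⟩ | ⟨n, hn⟩
  · refine le_trans ?_ (Complex.abs_re_le_norm _)
    simp only [Complex.sub_re]
    rw [hn]
    exact key n k
  · refine le_trans ?_ (Complex.abs_im_le_norm _)
    simp only [Complex.sub_im]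
    rw [hn]
    exact key n l

theorem mem_ctr_iff {R : ℕ} {μ : ℂ} : μ ∈ ctr (R + 1) ↔ ∃ k l : ℤ, μ = ⟨(k : ℝ) + 1 / 2, (l : ℝ) + 1 / 2⟩ ∧
    -((R : ℤ) + 1) ≤ k ∧ k < (R : ℤ) + 1 ∧ -((R : ℤ) + 1) ≤ l ∧ l < (R : ℤ) + 1 := by
  unfold ctr
  rw [Finset.mem_image]
  constructor
  · rintro ⟨⟨k, l⟩, h, rfl⟩
    rw [Finset.mem_product, Finset.mem_Ico, Finset.mem_Ico] at h
    push_cast at h
    exact ⟨k, l, rfl, h.1.1, h.1.2, h.2.1, h.2.2⟩
  · rintro ⟨k, l, rfl, h1, h2, h3, h4⟩
    refine ⟨(k, l), ?_, rfl⟩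
    rw [Finset.mem_product, Finset.mem_Ico, Finset.mem_Ico]
    push_cast
    exact ⟨⟨h1, h2⟩, h3, h4⟩

/-- one edge -/
theorem cut_one (hE : EdgeStmt) (hπ : Good B A π) (R : ℕ) {b : A} (hb : IsStarNormal b)
    (hs : spectrum ℂ b ⊆ grid ∩ Sq R) (hL : ∀ μ ∈ ctr (R + 1), Lft π (b - algebraMap ℂ A μ))
    {m : ℂ} (hm : Mid R m) {ε : ℝ} (hε : 0 < ε) (hε2 : ε < 1 / 2) :
    ∃ b' : A, IsStarNormal b' ∧ ‖b' - b‖ ≤ ε ∧ spectrum ℂ b' ⊆ grid ∩ Sq R ∧
      (∀ μ ∈ ctr (R + 1), Lft π (b' - algebraMap ℂ A μ)) ∧ m ∉ spectrum ℂ b' ∧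
      ∀ m', Mid R m' → m' ∉ spectrum ℂ b → m' ∉ spectrum ℂ b' := by
  have hcont : ∀ b' : A, ‖b' - b‖ ≤ ε → ∀ μ ∈ ctr (R + 1), Lft π (b' - algebraMap ℂ A μ) := by
    intro b' hb' μ hμ
    apply lft_pert hπ hb (δ := 1 / 2) (by norm_num) (hL μ hμ)
    · intro v hv
      obtain ⟨k, l, h, -⟩ := mem_ctr_iff.1 hμ
      exact grid_dist (hs hv).1 ⟨k, l, h⟩
    · linarith
  rcases hm with ⟨k, l, hm, h1, h2, h3, h4⟩ | ⟨k, l, hm, h1, h2, h3, h4⟩
  · obtain ⟨b', hb', hn, hmn, hsp⟩ := cut_step hE hπ hb 1 m (by simp)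
      (by
        intro v hv
        rw [one_mul, hm]
        rcases (hs hv).1 with ⟨n, hn⟩ | ⟨n, hn⟩
        · left
          refine ⟨n - k, ?_⟩
          simp [hn]
        · right
          refine ⟨n - l - 1, ?_⟩
          simp [hn]
          ring)
      (by
        apply hL
        rw [mem_ctr_iff]
        refine ⟨k, l, ?_, by omega, by omega, by omega, by omega⟩
        rw [hm]
        apply Complex.ext <;> simp)
      (by
        apply hL
        rw [mem_ctr_iff]
        refine ⟨k - 1, l, ?_, by omega, by omega, by omega, by omega⟩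
        rw [hm]
        apply Complex.ext <;> simp
        ring) hε
    have hsp' : ∀ z ∈ spectrum ℂ b', z ∈ spectrum ℂ b ∨
        (z.re = k ∧ |z.im - ((l : ℝ) + 1 / 2)| ≤ ε) := by
      intro z hz
      rcases hsp z hz with h | ⟨h, h'⟩
      · exact Or.inl h
      · right
        rw [one_mul, hm] at h h'
        simp only [Complex.sub_re, Complex.sub_im] at h h'
        exact ⟨by linarith, h'⟩
    refine ⟨b', hb', hn, ?_, hcont b' hn, hmn, ?_⟩
    · intro z hz
      rcases hsp' z hz with h | ⟨h, h'⟩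
      · exact hs h
      · refine ⟨Or.inl ⟨k, h⟩, ?_, ?_⟩
        · rw [h, abs_le]
          constructor
          · exact_mod_cast h1
          · exact_mod_cast h2
        · have a1 : (-(R:ℝ)) ≤ l := by exact_mod_cast h3
          have a2 : (l : ℝ) + 1 ≤ R := by exact_mod_cast h4
          rw [abs_le] at h' ⊢
          constructor <;> linarith [h'.1, h'.2]
    · intro m' hm' hmb hmb'
      rcases hsp' m' hmb' with h | ⟨h, h'⟩
      · exact hmb h
      · rcases hm' with ⟨k', l', hm2, -⟩ | ⟨k', l', hm2, -⟩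
        · rw [hm2] at h h'
          simp only at h h'
          have a1 : k' = k := by exact_mod_cast h
          have a2 : l' = l := by
            have a3 : |((l' - l : ℤ) : ℝ)| < 1 := by
              push_cast
              rw [show (l' : ℝ) + 1 / 2 - ((l : ℝ) + 1 / 2) = l' - l by ring] at h'
              linarith
            have a4 : |l' - l| < 1 := by exact_mod_cast a3
            rw [Int.abs_lt_one_iff] at a4
            omega
          apply hmn
          rw [hm, ← a1, ← a2, ← hm2]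
          exact hmb'
        · rw [hm2] at h
          simp only at h
          have a1 : ((2 * k' + 1 : ℤ) : ℝ) = ((2 * k : ℤ) : ℝ) := by
            push_cast
            linarith
          have a2 : 2 * k' + 1 = 2 * k := by exact_mod_cast a1
          omega
  · obtain ⟨b', hb', hn, hmn, hsp⟩ := cut_step hE hπ hb Complex.I m (by simp)
      (by
        intro v hv
        rw [hm]
        rcases (hs hv).1 with ⟨n, hn⟩ | ⟨n, hn⟩
        · right
          refine ⟨n - k - 1, ?_⟩
          simp [hn]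
          ring
        · left
          refine ⟨l - n, ?_⟩
          simp [hn])
      (by
        apply hL
        rw [mem_ctr_iff]
        refine ⟨k, l - 1, ?_, by omega, by omega, by omega, by omega⟩
        rw [hm]
        apply Complex.ext
        · simp
        · simp
          ring)
      (by
        apply hL
        rw [mem_ctr_iff]
        refine ⟨k, l, ?_, by omega, by omega, by omega, by omega⟩
        rw [hm]
        apply Complex.ext
        · simp
        · simp) hε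
    have hsp' : ∀ z ∈ spectrum ℂ b', z ∈ spectrum ℂ b ∨
        (z.im = l ∧ |z.re - ((k : ℝ) + 1 / 2)| ≤ ε) := by
      intro z hz
      rcases hsp z hz with h | ⟨h, h'⟩
      · exact Or.inl h
      · right
        rw [hm] at h h'
        simp only [Complex.mul_re, Complex.mul_im, Complex.I_re, Complex.I_im, Complex.sub_re,
          Complex.sub_im, zero_mul, one_mul, zero_sub, zero_add] at h h'
        exact ⟨by linarith, h'⟩
    refine ⟨b', hb', hn, ?_, hcont b' hn, hmn, ?_⟩
    · intro z hz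
      rcases hsp' z hz with h | ⟨h, h'⟩
      · exact hs h
      · refine ⟨Or.inr ⟨l, h⟩, ?_, ?_⟩
        · have a1 : (-(R:ℝ)) ≤ k := by exact_mod_cast h1
          have a2 : (k : ℝ) + 1 ≤ R := by exact_mod_cast h2
          rw [abs_le] at h' ⊢
          constructor <;> linarith [h'.1, h'.2]
        · rw [h, abs_le]
          constructor
          · exact_mod_cast h3
          · exact_mod_cast h4
    · intro m' hm' hmb hmb'
      rcases hsp' m' hmb' with h | ⟨h, h'⟩
      · exact hmb h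
      · rcases hm' with ⟨k', l', hm2, -⟩ | ⟨k', l', hm2, -⟩
        · rw [hm2] at h
          simp only at h
          have a1 : ((2 * l' + 1 : ℤ) : ℝ) = ((2 * l : ℤ) : ℝ) := by
            push_cast
            linarith
          have a2 : 2 * l' + 1 = 2 * l := by exact_mod_cast a1
          omega
        · rw [hm2] at h h'
          simp only at h h'
          have a1 : l' = l := by exact_mod_cast h
          have a2 : k' = k := by
            have a3 : |((k' - k : ℤ) : ℝ)| < 1 := by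
              push_cast
              rw [show (k' : ℝ) + 1 / 2 - ((k : ℝ) + 1 / 2) = k' - k by ring] at h'
              linarith
            have a4 : |k' - k| < 1 := by exact_mod_cast a3
            rw [Int.abs_lt_one_iff] at a4
            omega
          apply hmn
          rw [hm, ← a1, ← a2, ← hm2]
          exact hmb'

theorem cut_many (hE : EdgeStmt) (hπ : Good B A π) (R : ℕ) {b : A} (hb : IsStarNormal b)
    (hs : spectrum ℂ b ⊆ grid ∩ Sq R) (hL : ∀ μ ∈ ctr (R + 1), Lft π (b - algebraMap ℂ A μ))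
    {ε : ℝ} (hε : 0 < ε) (hε2 : ε < 1 / 2) (S : Finset ℂ) (hS : ∀ m ∈ S, Mid R m) :
    ∃ b' : A, IsStarNormal b' ∧ ‖b' - b‖ ≤ S.card * ε ∧ spectrum ℂ b' ⊆ grid ∩ Sq R ∧
      (∀ μ ∈ ctr (R + 1), Lft π (b' - algebraMap ℂ A μ)) ∧ ∀ m ∈ S, m ∉ spectrum ℂ b' := by
  classical
  induction S using Finset.induction_on with
  | empty => exact ⟨b, hb, by simp, hs, hL, by simp⟩
  | insert a S ha ih =>
    obtain ⟨b1, h1, h2, h3, h4, h5⟩ := ih (fun m hm => hS m (Finset.mem_insert_of_mem hm))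
    obtain ⟨b2, g1, g2, g3, g4, g5, g6⟩ := cut_one hE hπ R h1 h3 h4
      (hS a (Finset.mem_insert_self _ _)) hε hε2
    refine ⟨b2, g1, ?_, g3, g4, ?_⟩
    · rw [Finset.card_insert_of_notMem ha]
      push_cast
      calc ‖b2 - b‖ = ‖(b2 - b1) + (b1 - b)‖ := by abel_nf
        _ ≤ ‖b2 - b1‖ + ‖b1 - b‖ := norm_add_le _ _
        _ ≤ (S.card + 1) * ε := by linarith
    · intro m hm
      rw [Finset.mem_insert] at hm
      rcases hm with rfl | hm
      · exact g5
      · exact g6 m (hS m (Finset.mem_insert_of_mem hm)) (h5 m hm)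

theorem cutall (hE : EdgeStmt) : CutAllStmt := by
  intro B A _ _ π hπ R b hb hs hL
  obtain ⟨S, hS⟩ := mids R
  have hpos : (0:ℝ) < S.card + 4 := by positivity
  obtain ⟨b', h1, h2, h3, h4, h5⟩ := cut_many hE hπ R hb hs hL (ε := 1 / (S.card + 4))
    (by positivity) (by
      rw [div_lt_div_iff₀ hpos (by norm_num)]
      have : (0:ℝ) ≤ S.card := Nat.cast_nonneg _
      linarith) S (fun m hm => (hS m).1 hm)
  refine ⟨b', h1, h2.trans ?_, ?_⟩
  · rw [mul_one_div, div_le_one hpos]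
    linarith
  · intro z hz
    have hz' : ¬ Mid R z := fun h => h5 z ((hS z).2 h) hz
    obtain ⟨hg, hr, hi⟩ := h3 hz
    rcases hg with ⟨k, hk⟩ | ⟨k, hk⟩
    · left
      refine ⟨k, hk, ?_⟩
      intro l hl
      apply hz'
      left
      rw [hk, abs_le] at hr
      rw [hl, abs_le] at hi
      have a1 : -(R : ℤ) ≤ k := by exact_mod_cast hr.1
      have a2 : k ≤ (R : ℤ) := by exact_mod_cast hr.2
      have a3 : -(R : ℤ) ≤ l := by
        have : (-(R : ℝ)) < (l : ℝ) + 1 := by linarith [hi.1]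
        have : -(R : ℤ) < l + 1 := by exact_mod_cast this
        omega
      have a4 : l + 1 ≤ (R : ℤ) := by
        have : (l : ℝ) < R := by linarith [hi.2]
        have : l < (R : ℤ) := by exact_mod_cast this
        omega
      exact ⟨k, l, Complex.ext hk hl, a1, a2, a3, a4⟩
    · right
      refine ⟨k, hk, ?_⟩
      intro l hl
      apply hz'
      right
      rw [hk, abs_le] at hi
      rw [hl, abs_le] at hr
      have a1 : -(R : ℤ) ≤ k := by exact_mod_cast hi.1
      have a2 : k ≤ (R : ℤ) := by exact_mod_cast hi.2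
      have a3 : -(R : ℤ) ≤ l := by
        have : (-(R : ℝ)) < (l : ℝ) + 1 := by linarith [hr.1]
        have : -(R : ℤ) < l + 1 := by exact_mod_cast this
        omega
      have a4 : l + 1 ≤ (R : ℤ) := by
        have : (l : ℝ) < R := by linarith [hr.2]
        have : l < (R : ℤ) := by exact_mod_cast this
        omega
      exact ⟨l, k, Complex.ext hl hk, a3, a4, a1, a2⟩

end Pool.Agent.H42.BDFP
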