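import Mathlib
import Pool.Agent.H33.BDFP.DStmts
import Pool.Agent.H42.BDFP.Lft

attribute [local instance] Pool.Agent.H33.BDFP.NV.instNACG Pool.Agent.H33.BDFP.NV.instModule
  Pool.Agent.H33.BDFP.NV.instNormedSpace Pool.Agent.H33.BDFP.NV.instFD
  Pool.Agent.H33.BDFP.NV.instComplete

/-!
Module RETR: the radial retraction to the grid.
-/

noncomputable section

namespace Pool.Agent.H42.BDFP

open Pool.Agent.H33.BDFP
open scoped CStarAlgebra

/-- centre of the cell -/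
def cc (v : ℂ) : ℂ := ⟨(⌊v.re⌋ : ℝ) + 1 / 2, (⌊v.im⌋ : ℝ) + 1 / 2⟩

/-- twice the distance of a real to the middle of its unit interval -/
def dd (x : ℝ) : ℝ := 2 * |x - ((⌊x⌋ : ℝ) + 1 / 2)|

/-- scale -/
def ss (v : ℂ) : ℝ := max (dd v.re) (dd v.im)

/-- the retraction -/
def rr (v : ℂ) : ℂ := cc v + ((ss v)⁻¹ : ℝ) • (v - cc v)

theorem dd_continuous : Continuous dd := by
  have h : dd = (fun t : ℝ => 2 * |t - 1 / 2|) ∘ Int.fract := by
    ext x
    simp only [dd, Function.comp_apply, Int.fract]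
    congr 2
    ring
  rw [h]
  apply ContinuousOn.comp_fract''
  · fun_prop
  · norm_num

theorem dd_le (x : ℝ) : dd x ≤ 1 := by
  have h1 := Int.floor_le x
  have h2 := (Int.lt_floor_add_one x).le
  have : |x - ((⌊x⌋ : ℝ) + 1 / 2)| ≤ 1 / 2 := by
    rw [abs_le]
    constructor <;> linarith
  unfold dd
  linarith

theorem dd_nonneg (x : ℝ) : 0 ≤ dd x := by
  unfold dd
  positivity

theorem ss_continuous : Continuous ss := by
  unfold ss
  have := dd_continuous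
  fun_prop

theorem ss_le (v : ℂ) : ss v ≤ 1 := max_le (dd_le _) (dd_le _)

theorem ss_nonneg (v : ℂ) : 0 ≤ ss v := le_max_of_le_left (dd_nonneg _)

theorem ss_eq_zero {v : ℂ} (h : ss v = 0) : v = cc v := by
  have h1 : dd v.re ≤ 0 := h ▸ le_max_left _ _
  have h2 : dd v.im ≤ 0 := h ▸ le_max_right _ _
  have h3 : |v.re - ((⌊v.re⌋ : ℝ) + 1 / 2)| = 0 := by
    have := abs_nonneg (v.re - ((⌊v.re⌋ : ℝ) + 1 / 2))
    unfold dd at h1
    linarith
  have h4 : |v.im - ((⌊v.im⌋ : ℝ) + 1 / 2)| = 0 := by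
    have := abs_nonneg (v.im - ((⌊v.im⌋ : ℝ) + 1 / 2))
    unfold dd at h2
    linarith
  rw [abs_eq_zero, sub_eq_zero] at h3 h4
  apply Complex.ext
  · exact h3
  · exact h4

theorem re_sub (v : ℂ) : |(v - cc v).re| ≤ ss v / 2 := by
  have h : dd v.re ≤ ss v := le_max_left _ _
  have : (v - cc v).re = v.re - ((⌊v.re⌋ : ℝ) + 1 / 2) := by simp [cc]
  rw [this]
  unfold dd at h
  linarith

theorem im_sub (v : ℂ) : |(v - cc v).im| ≤ ss v / 2 := by
  have h : dd v.im ≤ ss v := le_max_right _ _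
  have : (v - cc v).im = v.im - ((⌊v.im⌋ : ℝ) + 1 / 2) := by simp [cc]
  rw [this]
  unfold dd at h
  linarith

theorem norm_sub_cc (v : ℂ) : ‖v - cc v‖ ≤ ss v := by
  have := Complex.norm_le_abs_re_add_abs_im (v - cc v)
  have h1 := re_sub v
  have h2 := im_sub v
  linarith

theorem rr_eq (v : ℂ) : rr v = v + ((ss v)⁻¹ - 1 : ℝ) • (v - cc v) := by
  unfold rr
  rw [sub_smul, one_smul]
  ring

theorem rr_re (v : ℂ) : (rr v).re = (cc v).re + (ss v)⁻¹ * (v - cc v).re := by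
  simp [rr]

theorem rr_im (v : ℂ) : (rr v).im = (cc v).im + (ss v)⁻¹ * (v - cc v).im := by
  simp [rr]

theorem dd_lt_one {x : ℝ} (h : dd x < 1) : (⌊x⌋ : ℝ) < x := by
  rcases (Int.floor_le x).lt_or_eq with h1 | h1
  · exact h1
  · exfalso
    have : dd x = 1 := by
      unfold dd
      rw [h1]
      rw [show x - (x + 1 / 2) = -(1/2) by ring, abs_neg, abs_of_pos (by norm_num)]
      norm_num
    linarith

theorem floor_eventually {x : ℝ} (h : (⌊x⌋ : ℝ) < x) : ∀ᶠ y in nhds x, ⌊y⌋ = ⌊x⌋ := by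
  have h1 : Set.Ioo (⌊x⌋ : ℝ) (⌊x⌋ + 1) ∈ nhds x := Ioo_mem_nhds h (Int.lt_floor_add_one x)
  filter_upwards [h1] with y hy
  rw [Int.floor_eq_iff]
  exact ⟨hy.1.le, hy.2⟩

theorem rr_continuousAt {v : ℂ} (h : 0 < ss v) : ContinuousAt rr v := by
  have e : rr = fun v => v + ((ss v)⁻¹ - 1 : ℝ) • (v - cc v) := funext rr_eq
  rw [e]
  apply ContinuousAt.add continuousAt_id
  have hs : ContinuousAt (fun w => ((ss w)⁻¹ - 1 : ℝ)) v := by
    apply ContinuousAt.sub _ continuousAt_const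
    exact (ss_continuous.continuousAt).inv₀ h.ne'
  rcases (ss_le v).lt_or_eq with h1 | h1
  · have h2 : ∀ᶠ w in nhds v, cc w = cc v := by
      have a1 : (⌊v.re⌋ : ℝ) < v.re := dd_lt_one ((le_max_left _ _).trans_lt h1)
      have a2 : (⌊v.im⌋ : ℝ) < v.im := dd_lt_one ((le_max_right _ _).trans_lt h1)
      have b1 := Complex.continuous_re.continuousAt.eventually (floor_eventually a1)
      have b2 := Complex.continuous_im.continuousAt.eventually (floor_eventually a2)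
      filter_upwards [b1, b2] with w h3 h4
      unfold cc
      rw [h3, h4]
    have h3 : ContinuousAt (fun w => ((ss w)⁻¹ - 1 : ℝ) • (w - cc v)) v :=
      hs.smul (continuousAt_id.sub continuousAt_const)
    apply h3.congr
    filter_upwards [h2] with w hw
    rw [hw]
  · unfold ContinuousAt
    have h0 : ((ss v)⁻¹ - 1 : ℝ) • (v - cc v) = 0 := by rw [h1]; simp
    beta_reduce
    rw [h0]
    have h2 : Filter.Tendsto (fun w => |((ss w)⁻¹ - 1 : ℝ)|) (nhds v) (nhds 0) := by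
      have := hs.abs
      unfold ContinuousAt at this
      simp only [h1, inv_one, sub_self, abs_zero] at this
      exact this
    apply squeeze_zero_norm _ h2
    intro w
    rw [norm_smul, Real.norm_eq_abs]
    have := (norm_sub_cc w).trans (ss_le w)
    have h5 := abs_nonneg ((ss w)⁻¹ - 1 : ℝ)
    nlinarith

theorem abs_re_le {v : ℂ} (h : 0 < ss v) : |(ss v)⁻¹ * (v - cc v).re| ≤ 1 / 2 := by
  rw [abs_mul, abs_of_pos (inv_pos.2 h), inv_mul_le_iff₀ h]
  have := re_sub v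
  linarith

theorem abs_im_le {v : ℂ} (h : 0 < ss v) : |(ss v)⁻¹ * (v - cc v).im| ≤ 1 / 2 := by
  rw [abs_mul, abs_of_pos (inv_pos.2 h), inv_mul_le_iff₀ h]
  have := im_sub v
  linarith

theorem rr_re_mem {v : ℂ} (h : 0 < ss v) :
    (⌊v.re⌋ : ℝ) ≤ (rr v).re ∧ (rr v).re ≤ ⌊v.re⌋ + 1 := by
  have h1 := abs_le.1 (abs_re_le h)
  rw [rr_re]
  have : (cc v).re = ⌊v.re⌋ + 1 / 2 := rfl
  rw [this]
  constructor <;> linarith [h1.1, h1.2]

theorem rr_im_mem {v : ℂ} (h : 0 < ss v) :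
    (⌊v.im⌋ : ℝ) ≤ (rr v).im ∧ (rr v).im ≤ ⌊v.im⌋ + 1 := by
  have h1 := abs_le.1 (abs_im_le h)
  rw [rr_im]
  have : (cc v).im = ⌊v.im⌋ + 1 / 2 := rfl
  rw [this]
  constructor <;> linarith [h1.1, h1.2]

theorem rr_sub_norm {v : ℂ} (h : 0 < ss v) : ‖rr v - v‖ ≤ 1 := by
  have h1 : rr v - v = ((ss v)⁻¹ - 1 : ℝ) • (v - cc v) := by
    rw [rr_eq]
    ring
  rw [h1, norm_smul, Real.norm_eq_abs]
  have h2 : 1 ≤ (ss v)⁻¹ := (one_le_inv₀ h).2 (ss_le v)
  rw [abs_of_nonneg (by linarith)]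
  calc ((ss v)⁻¹ - 1) * ‖v - cc v‖ ≤ ((ss v)⁻¹ - 1) * ss v := by
        apply mul_le_mul_of_nonneg_left (norm_sub_cc v)
        linarith
    _ = 1 - ss v := by
        rw [sub_mul, inv_mul_cancel₀ h.ne']
        ring
    _ ≤ 1 := by linarith

theorem rr_one {v : ℂ} (h : ss v = 1) : rr v = v := by
  rw [rr_eq, h]
  simp

theorem dd_int (n : ℤ) : dd (n : ℝ) = 1 := by
  unfold dd
  rw [Int.floor_intCast]
  rw [show (n : ℝ) - (n + 1 / 2) = -(1/2) by ring, abs_neg, abs_of_pos (by norm_num)]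
  norm_num

theorem rr_mem_Sq {R : ℕ} {v : ℂ} (h : 0 < ss v) (hv : v ∈ Sq R) : rr v ∈ Sq R := by
  obtain ⟨h1, h2⟩ := hv
  have key : ∀ x y : ℝ, |x| ≤ R → (x = R → y = x) → (⌊x⌋ : ℝ) ≤ y → y ≤ ⌊x⌋ + 1 → |y| ≤ R := by
    intro x y hx hR h3 h4
    rw [abs_le] at hx ⊢
    rcases hx.2.lt_or_eq with h5 | h5
    · have h6 : (-(R:ℤ)) ≤ ⌊x⌋ := by
        rw [Int.le_floor]
        push_cast
        exact hx.1
      have h7 : ⌊x⌋ < (R : ℤ) := by
        rw [Int.floor_lt]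
        exact_mod_cast h5
      have h6' : (-(R:ℝ)) ≤ ⌊x⌋ := by exact_mod_cast h6
      have h7' : (⌊x⌋ : ℝ) + 1 ≤ R := by exact_mod_cast h7
      constructor <;> linarith
    · rw [hR h5, h5]
      constructor
      · have : (0:ℝ) ≤ R := Nat.cast_nonneg R
        linarith
      · exact le_rfl
  constructor
  · apply key v.re _ h1 _ (rr_re_mem h).1 (rr_re_mem h).2
    intro h3
    rw [rr_one]
    apply le_antisymm (ss_le v)
    have : dd v.re = 1 := by
      rw [h3]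
      exact_mod_cast dd_int (R : ℤ)
    exact this ▸ le_max_left _ _
  · apply key v.im _ h2 _ (rr_im_mem h).1 (rr_im_mem h).2
    intro h3
    rw [rr_one]
    apply le_antisymm (ss_le v)
    have : dd v.im = 1 := by
      rw [h3]
      exact_mod_cast dd_int (R : ℤ)
    exact this ▸ le_max_right _ _

theorem half_int {n : ℤ} {t s : ℝ} (hs : 0 < s) (h : 2 * |t| = s) :
    ∃ k : ℤ, (n : ℝ) + 1 / 2 + s⁻¹ * t = k := by
  rcases abs_cases t with ⟨h1, h2⟩ | ⟨h1, h2⟩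
  · refine ⟨n + 1, ?_⟩
    rw [h1] at h
    have : s⁻¹ * t = 1 / 2 := by
      rw [← h]
      have : t ≠ 0 := by
        rintro rfl
        simp at h
        linarith
      field_simp
    rw [this]
    push_cast
    ring
  · refine ⟨n, ?_⟩
    rw [h1] at h
    have : s⁻¹ * t = -(1 / 2) := by
      rw [← h]
      have : t ≠ 0 := by
        rintro rfl
        simp at h
        linarith
      field_simp
    rw [this]
    ring

theorem rr_mem_grid {v : ℂ} (h : 0 < ss v) : rr v ∈ grid := by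
  rcases le_total (dd v.re) (dd v.im) with h1 | h1
  · right
    have h2 : dd v.im = ss v := (max_eq_right h1).symm
    have h3 : 2 * |(v - cc v).im| = ss v := by
      rw [← h2]
      simp [dd, cc]
    obtain ⟨k, hk⟩ := half_int (n := ⌊v.im⌋) h h3
    exact ⟨k, by rw [rr_im, ← hk]; rfl⟩
  · left
    have h2 : dd v.re = ss v := (max_eq_left h1).symm
    have h3 : 2 * |(v - cc v).re| = ss v := by
      rw [← h2]
      simp [dd, cc]
    obtain ⟨k, hk⟩ := half_int (n := ⌊v.re⌋) h h3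
    exact ⟨k, by rw [rr_re, ← hk]; rfl⟩

theorem mem_ctr {R : ℕ} {v : ℂ} (hv : v ∈ Sq R) : cc v ∈ ctr (R + 1) := by
  have key : ∀ x : ℝ, |x| ≤ R → -((R:ℤ) + 1) ≤ ⌊x⌋ ∧ ⌊x⌋ < (R:ℤ) + 1 := by
    intro x hx
    rw [abs_le] at hx
    constructor
    · rw [Int.le_floor]
      push_cast
      linarith [hx.1]
    · rw [Int.floor_lt]
      push_cast
      linarith [hx.2]
  unfold ctr
  rw [Finset.mem_image]
  refine ⟨(⌊v.re⌋, ⌊v.im⌋), ?_, rfl⟩
  rw [Finset.mem_product, Finset.mem_Ico, Finset.mem_Ico]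
  push_cast
  exact ⟨key _ hv.1, key _ hv.2⟩

/-- the quotient avoids the negative half line -/
theorem slit {v μ : ℂ} (h : 0 < ss v) (hv : v ≠ μ) (hμ : ∃ k l : ℤ, μ = ⟨(k : ℝ) + 1 / 2, (l : ℝ) + 1 / 2⟩) :
    (rr v - μ) / (v - μ) ∈ Complex.slitPlane := by
  obtain ⟨k, l, hμ⟩ := hμ
  by_contra hcon
  have hne : v - μ ≠ 0 := sub_ne_zero.2 hv
  rw [Complex.mem_slitPlane_iff, not_or, not_lt, not_not] at hcon
  obtain ⟨hre, him⟩ := hcon
  set q := (rr v - μ) / (v - μ) with hq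
  have hq2 : q = ((-(-q.re) : ℝ) : ℂ) := by
    apply Complex.ext
    · simp
    · simpa using him
  set t : ℝ := -q.re with ht
  have ht0 : 0 ≤ t := by linarith
  have e1 : rr v - μ = ((-t : ℝ) : ℂ) * (v - μ) := by
    rw [← hq2, hq, div_mul_cancel₀ _ hne]
  have e2 : (rr v).re - μ.re = -t * (v.re - μ.re) := by
    have := congrArg Complex.re e1
    simpa using this
  have e3 : (rr v).im - μ.im = -t * (v.im - μ.im) := by
    have := congrArg Complex.im e1
    simpa using this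
  have key : ∀ (x y : ℝ) (k : ℤ), (⌊x⌋ : ℝ) ≤ y → y ≤ ⌊x⌋ + 1 →
      y - ((k : ℝ) + 1 / 2) = -t * (x - ((k : ℝ) + 1 / 2)) → k = ⌊x⌋ := by
    intro x y k h1 h2 h3
    have h4 := Int.floor_le x
    have h5 := (Int.lt_floor_add_one x).le
    have h6 : (1 + t) * ((k : ℝ) + 1 / 2) = y + t * x := by linarith
    have h7 : (1 + t) * (⌊x⌋ : ℝ) ≤ (1 + t) * ((k : ℝ) + 1 / 2) := by
      rw [h6]
      nlinarith
    have h8 : (1 + t) * ((k : ℝ) + 1 / 2) ≤ (1 + t) * ((⌊x⌋ : ℝ) + 1) := by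
      rw [h6]
      nlinarith
    have h9 : (⌊x⌋ : ℝ) ≤ (k : ℝ) + 1 / 2 := le_of_mul_le_mul_left h7 (by linarith)
    have h10 : ((k : ℝ) + 1 / 2) ≤ (⌊x⌋ : ℝ) + 1 := le_of_mul_le_mul_left h8 (by linarith)
    have h11 : (⌊x⌋ : ℝ) < (k : ℝ) + 1 := by linarith
    have h12 : (k : ℝ) < (⌊x⌋ : ℝ) + 1 := by linarith
    have h13 : ⌊x⌋ < k + 1 := by exact_mod_cast h11
    have h14 : k < ⌊x⌋ + 1 := by exact_mod_cast h12
    omega
  have hk : k = ⌊v.re⌋ := key v.re _ k (rr_re_mem h).1 (rr_re_mem h).2 (by rw [hμ] at e2; exact e2)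
  have hl : l = ⌊v.im⌋ := key v.im _ l (rr_im_mem h).1 (rr_im_mem h).2 (by rw [hμ] at e3; exact e3)
  have hc : μ = cc v := by
    rw [hμ, hk, hl]
    rfl
  have hpos : q = ((ss v)⁻¹ : ℝ) := by
    rw [hq, hc]
    have : rr v - cc v = ((ss v)⁻¹ : ℝ) * (v - cc v) := by
      unfold rr
      rw [Complex.real_smul]
      ring
    rw [this, mul_div_cancel_right₀]
    rw [← hc]
    exact hne
  have : q.re = (ss v)⁻¹ := by
    rw [hpos]
    exact Complex.ofReal_re _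
  have h3 : 0 < (ss v)⁻¹ := inv_pos.2 h
  linarith

theorem retr : RetrStmt := by
  intro B A _ _ π hπ R b hb hR hμ
  have hns : ∀ μ ∈ ctr (R + 1), μ ∉ spectrum ℂ b := by
    intro μ hm h
    rw [spectrum.mem_iff] at h
    apply h
    have := (lft_unit (hμ μ hm)).neg
    rwa [neg_sub] at this
  have hpos : ∀ v ∈ spectrum ℂ b, 0 < ss v := by
    intro v hv
    rcases (ss_nonneg v).lt_or_eq with h | h
    · exact h
    · exfalso
      have h1 := ss_eq_zero h.symm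
      apply hns _ (mem_ctr (hR hv))
      rw [← h1]
      exact hv
  have hcont : ContinuousOn rr (spectrum ℂ b) :=
    fun v hv => (rr_continuousAt (hpos v hv)).continuousWithinAt
  refine ⟨cfc rr b, cfc_predicate rr b, ?_, ?_, ?_⟩
  · have e : cfc rr b - b = cfc (fun v => rr v - v) b := by
      rw [cfc_sub rr (fun v => v) b, cfc_id' ℂ b]
    rw [e]
    apply norm_cfc_le zero_le_one
    intro v hv
    exact rr_sub_norm (hpos v hv)
  · rw [cfc_map_spectrum rr b]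
    rintro _ ⟨v, hv, rfl⟩
    exact ⟨rr_mem_grid (hpos v hv), rr_mem_Sq (hpos v hv) (hR hv)⟩
  · intro μ hm
    apply lft_cfc hπ hb (hμ μ hm) rr hcont
    intro v hv
    apply slit (hpos v hv)
    · rintro rfl
      exact hns _ hm hv
    · unfold ctr at hm
      rw [Finset.mem_image] at hm
      obtain ⟨q, -, hq⟩ := hm
      exact ⟨q.1, q.2, hq.symm⟩

end Pool.Agent.H42.BDFP
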